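import Mathlib

/-!
# Continuous endomorphisms of `K^ℕ` have algebraic entropy `0` or `∞`

Let `K` be a nontrivial finite abelian group. Every continuous endomorphism of the compact group
`K^ℕ` has algebraic entropy `0` or `∞`. The proof works for every compact Hausdorff abelian group of
finite exponent: by the Baire category theorem, if some element of a compact group `Q` of prime
exponent `p` has an infinite trajectory, then there are arbitrarily many elements with independent
infinite trajectories.
-/

set_option autoImplicit false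

namespace Pool.Agent.Results.MP_e13f3c_al.ZeroOrInfinite

open Filter Topology Pointwise

section definitions

variable {G : Type} [AddCommGroup G]

/-- The partial trajectory `T_n(φ, F) = F + φ(F) + ⋯ + φ^{n-1}(F)` of a subgroup `F`. -/
def trajectory (φ : G →+ G) (F : AddSubgroup G) (n : ℕ) : AddSubgroup G :=
  ⨆ i ∈ Finset.range n, (AddSubgroup.map φ)^[i] F

/-- `H(φ, F) = lim_{n → ∞} log |T_n(φ, F)| / n` (the limit exists when `F` is finite). -/
noncomputable def entropyOn (φ : G →+ G) (F : AddSubgroup G) : ℝ :=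
  limUnder atTop fun n : ℕ => Real.log (Nat.card (trajectory φ F n)) / n

/-- The algebraic entropy `ent(φ) = sup {H(φ, F) : F a finite subgroup of G}`. -/
noncomputable def ent (φ : G →+ G) : EReal :=
  ⨆ (F : AddSubgroup G) (_ : Finite F), (entropyOn φ F : EReal)

end definitions

/-! ### Trajectories -/

section traj

variable {G : Type} [AddCommGroup G] (φ : G →+ G)

theorem mem_iterate_map (F : AddSubgroup G) (i : ℕ) (y : G) :
    y ∈ (AddSubgroup.map φ)^[i] F ↔ ∃ x ∈ F, φ^[i] x = y := by
  induction i generalizing y with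
  | zero => simp
  | succ i ih =>
    rw [Function.iterate_succ_apply', AddSubgroup.mem_map]
    constructor
    · rintro ⟨z, hz, rfl⟩
      obtain ⟨x, hx, rfl⟩ := (ih z).1 hz
      exact ⟨x, hx, Function.iterate_succ_apply' _ _ _⟩
    · rintro ⟨x, hx, rfl⟩
      exact ⟨φ^[i] x, (ih _).2 ⟨x, hx, rfl⟩, (Function.iterate_succ_apply' _ _ _).symm⟩

theorem pow_mem_trajectory (F : AddSubgroup G) {i n : ℕ} (h : i < n) {x : G} (hx : x ∈ F) :
    φ^[i] x ∈ trajectory φ F n :=
  (le_iSup₂_of_le (f := fun i (_ : i ∈ Finset.range n) => (AddSubgroup.map φ)^[i] F) i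
    (Finset.mem_range.2 h) le_rfl : (AddSubgroup.map φ)^[i] F ≤ trajectory φ F n)
    ((mem_iterate_map φ F i _).2 ⟨x, hx, rfl⟩)

theorem trajectory_le {F W : AddSubgroup G} {n : ℕ} (h : ∀ i < n, ∀ x ∈ F, φ^[i] x ∈ W) :
    trajectory φ F n ≤ W := by
  refine iSup₂_le fun i hi y hy => ?_
  obtain ⟨x, hx, rfl⟩ := (mem_iterate_map φ F i _).1 hy
  exact h i (Finset.mem_range.1 hi) x hx

theorem trajectory_le_of_stable {F W : AddSubgroup G} (hF : F ≤ W) (hW : ∀ x ∈ W, φ x ∈ W)
    (n : ℕ) : trajectory φ F n ≤ W := by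
  refine trajectory_le φ fun i _ => ?_
  clear * - hF hW
  induction i with
  | zero => intro x hx; exact hF hx
  | succ i ih =>
    intro x hx
    rw [Function.iterate_succ_apply']
    exact hW _ (ih x hx)

theorem finite_iSup {ι : Type} (s : Finset ι) (A : ι → AddSubgroup G)
    (h : ∀ i ∈ s, Finite (A i)) : Finite (⨆ i ∈ s, A i : AddSubgroup G) := by
  classical
  induction s using Finset.induction_on with
  | empty =>
    rw [show (⨆ i ∈ (∅ : Finset ι), A i) = ⊥ by simp]
    infer_instance
  | insert a s ha ih =>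
    rw [Finset.iSup_insert]
    have h1 : Finite (A a) := h a (Finset.mem_insert_self _ _)
    have h2 : Finite (⨆ i ∈ s, A i : AddSubgroup G) :=
      ih fun i hi => h i (Finset.mem_insert_of_mem hi)
    have h3 : ((A a ⊔ ⨆ i ∈ s, A i : AddSubgroup G) : Set G) =
        (A a : Set G) + ((⨆ i ∈ s, A i : AddSubgroup G) : Set G) := AddSubgroup.add_normal _ _
    have h4 : ((A a ⊔ ⨆ i ∈ s, A i : AddSubgroup G) : Set G).Finite := by
      rw [h3]
      exact Set.Finite.add h1 h2
    exact h4

theorem finite_sup {A B : AddSubgroup G} [Finite A] [Finite B] :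
    Finite (A ⊔ B : AddSubgroup G) := by
  have h3 : ((A ⊔ B : AddSubgroup G) : Set G) = (A : Set G) + (B : Set G) :=
    AddSubgroup.add_normal _ _
  have h4 : ((A ⊔ B : AddSubgroup G) : Set G).Finite := by
    rw [h3]
    exact Set.Finite.add ‹Finite A› ‹Finite B›
  exact h4

theorem finite_trajectory (F : AddSubgroup G) [Finite F] (n : ℕ) :
    Finite (trajectory φ F n) := by
  refine finite_iSup _ _ fun i _ => ?_
  have : (((AddSubgroup.map φ)^[i] F : AddSubgroup G) : Set G) = φ^[i] '' (F : Set G) := by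
    ext y
    exact mem_iterate_map φ F i y
  have h : (((AddSubgroup.map φ)^[i] F : AddSubgroup G) : Set G).Finite := by
    rw [this]
    exact Set.Finite.image _ ‹Finite F›
  exact h

theorem trajectory_add (F : AddSubgroup G) (m n : ℕ) :
    trajectory φ F (m + n) ≤ trajectory φ F m ⊔ (AddSubgroup.map φ)^[m] (trajectory φ F n) := by
  refine trajectory_le φ fun i hi x hx => ?_
  rcases lt_or_ge i m with h | h
  · exact AddSubgroup.mem_sup_left (pow_mem_trajectory φ F h hx)
  · refine AddSubgroup.mem_sup_right ((mem_iterate_map φ _ m _).2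
      ⟨φ^[i - m] x, pow_mem_trajectory φ F (by omega) hx, ?_⟩)
    rw [← Function.iterate_add_apply]
    congr 2
    omega

theorem card_trajectory_add (F : AddSubgroup G) [Finite F] (m n : ℕ) :
    Nat.card (trajectory φ F (m + n)) ≤
      Nat.card (trajectory φ F m) * Nat.card (trajectory φ F n) := by
  have h1 := finite_trajectory φ F m
  have h2 := finite_trajectory φ F n
  let f : trajectory φ F m × trajectory φ F n → G := fun p => p.1 + φ^[m] p.2
  have h3 : ((trajectory φ F (m + n) : AddSubgroup G) : Set G) ⊆ Set.range f := by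
    intro z hz
    obtain ⟨a, ha, b, hb, rfl⟩ :=
      AddSubgroup.mem_sup.1 (trajectory_add φ F m n hz)
    obtain ⟨c, hc, rfl⟩ := (mem_iterate_map φ _ m _).1 hb
    exact ⟨(⟨a, ha⟩, ⟨c, hc⟩), rfl⟩
  calc Nat.card (trajectory φ F (m + n)) ≤ Nat.card (Set.range f) :=
        Nat.card_mono (Set.finite_range f) h3
    _ ≤ Nat.card (trajectory φ F m × trajectory φ F n) := Finite.card_range_le f
    _ = _ := Nat.card_prod _ _

theorem subadditive (F : AddSubgroup G) [Finite F] :
    Subadditive fun n : ℕ => Real.log (Nat.card (trajectory φ F n)) := by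
  intro m n
  have h1 := finite_trajectory φ F m
  have h2 := finite_trajectory φ F n
  have h3 := finite_trajectory φ F (m + n)
  have hm : (0 : ℝ) < Nat.card (trajectory φ F m) := by exact_mod_cast Nat.card_pos
  have hn : (0 : ℝ) < Nat.card (trajectory φ F n) := by exact_mod_cast Nat.card_pos
  have hmn : (0 : ℝ) < Nat.card (trajectory φ F (m + n)) := by exact_mod_cast Nat.card_pos
  rw [← Real.log_mul hm.ne' hn.ne']
  apply Real.log_le_log hmn
  exact_mod_cast card_trajectory_add φ F m n

/-- The limit defining `H(φ, F)` exists. -/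
theorem tendsto_entropyOn (F : AddSubgroup G) [Finite F] :
    Tendsto (fun n : ℕ => Real.log (Nat.card (trajectory φ F n)) / n) atTop
      (𝓝 (entropyOn φ F)) := by
  have h := (subadditive φ F).tendsto_lim ⟨0, by
    rintro _ ⟨n, rfl⟩
    exact div_nonneg (Real.log_natCast_nonneg _) (Nat.cast_nonneg _)⟩
  rwa [entropyOn, h.limUnder_eq]

theorem entropyOn_eq_zero (F : AddSubgroup G) [Finite F] (W : AddSubgroup G) [Finite W]
    (h : ∀ n, trajectory φ F n ≤ W) : entropyOn φ F = 0 := by
  refine tendsto_nhds_unique (tendsto_entropyOn φ F) ?_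
  refine squeeze_zero (g := fun n : ℕ => Real.log (Nat.card W) / n)
    (fun n => div_nonneg (Real.log_natCast_nonneg _) (Nat.cast_nonneg _)) (fun n => ?_)
    (tendsto_const_div_atTop_nhds_zero_nat _)
  have h3 := finite_trajectory φ F n
  have hmn : (0 : ℝ) < Nat.card (trajectory φ F n) := by exact_mod_cast Nat.card_pos
  have : Nat.card (trajectory φ F n) ≤ Nat.card W :=
    Nat.card_mono (show ((W : AddSubgroup G) : Set G).Finite from ‹Finite W›) (h n)
  gcongr

theorem le_entropyOn (F : AddSubgroup G) [Finite F] (k : ℕ)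
    (h : ∀ n : ℕ, 2 ^ (k * n) ≤ Nat.card (trajectory φ F n)) :
    k * Real.log 2 ≤ entropyOn φ F := by
  refine ge_of_tendsto (tendsto_entropyOn φ F) ?_
  filter_upwards [eventually_gt_atTop 0] with n hn
  have hn' : (0 : ℝ) < n := by exact_mod_cast hn
  rw [le_div_iff₀ hn']
  have h1 : Real.log ((2 : ℝ) ^ (k * n)) ≤ Real.log (Nat.card (trajectory φ F n)) := by
    apply Real.log_le_log (by positivity)
    exact_mod_cast h n
  rw [Real.log_pow] at h1
  push_cast at h1
  linarith

theorem map_trajectory_le {G' : Type} [AddCommGroup G'] (ψ : G' →+ G') (ι : G' →+ G)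
    (h : ∀ x, ι (ψ x) = φ (ι x)) (F : AddSubgroup G') (n : ℕ) :
    (trajectory ψ F n).map ι ≤ trajectory φ (F.map ι) n := by
  have h1 : ∀ i x, ι (ψ^[i] x) = φ^[i] (ι x) := by
    intro i x
    induction i with
    | zero => rfl
    | succ i ih => rw [Function.iterate_succ_apply', Function.iterate_succ_apply', h, ih]
  rw [AddSubgroup.map_le_iff_le_comap]
  refine trajectory_le ψ fun i hi x hx => ?_
  rw [AddSubgroup.mem_comap, h1]
  exact pow_mem_trajectory φ _ hi ⟨x, hx, rfl⟩

end traj

/-! ### The Baire category argument -/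

section baire

open Polynomial

variable {Q : Type} [AddCommGroup Q] {p : ℕ} [Fact p.Prime] [Module (ZMod p) Q]
  (L : Q →ₗ[ZMod p] Q)

/-- A family in `Q` whose trajectories are independent. -/
def Indep {k : ℕ} (x : Fin k → Q) : Prop :=
  ∀ f : Fin k → (ZMod p)[X], ∑ j, aeval L (f j) (x j) = 0 → f = 0

theorem aeval_X_pow_mul (f : (ZMod p)[X]) (n : ℕ) (x : Q) :
    aeval L (X ^ n * f) x = aeval L f ((L ^ n) x) := by
  rw [mul_comm, map_mul, map_pow, aeval_X]
  rfl

variable [TopologicalSpace Q] [IsTopologicalAddGroup Q]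

theorem continuous_aeval (hL : Continuous L) (f : (ZMod p)[X]) : Continuous (aeval L f) := by
  have hsmul : ∀ c : ZMod p, Continuous fun x : Q => c • x := by
    intro c
    have h : (fun x : Q => c • x) = fun x : Q => c.val • x := by
      funext x
      rw [← Nat.cast_smul_eq_nsmul (ZMod p), ZMod.natCast_zmod_val]
    rw [h]
    exact continuous_nsmul _
  induction f using Polynomial.induction_on with
  | C a =>
    rw [aeval_C]
    exact hsmul a
  | add f g hf hg =>
    rw [map_add]
    exact hf.add hg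
  | monomial n a ih =>
    rw [pow_succ, ← mul_assoc, map_mul, aeval_X]
    exact ih.comp hL

variable [CompactSpace Q] [T2Space Q]

/-- If some element has an infinite trajectory, then there are arbitrarily many elements with
independent trajectories. -/
theorem exists_indep (hL : Continuous L) (x₀ : Q)
    (h0 : ∀ f : (ZMod p)[X], aeval L f x₀ = 0 → f = 0) (k : ℕ) :
    ∃ x : Fin k → Q, Indep L x := by
  induction k with
  | zero => exact ⟨Fin.elim0, fun f _ => Subsingleton.elim _ _⟩
  | succ k ih =>
    obtain ⟨x, hx⟩ := ih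
    by_contra hcon
    push Not at hcon
    -- every `y` is dependent on the `x j`
    have hdep : ∀ y : Q, ∃ i : {f : (ZMod p)[X] // f ≠ 0} × (Fin k → (ZMod p)[X]),
        aeval L i.1.1 y + ∑ j, aeval L (i.2 j) (x j) = 0 := by
      intro y
      have h1 := hcon (Fin.cons y x)
      rw [Indep] at h1
      push Not at h1
      obtain ⟨f, hf, hf0⟩ := h1
      rw [Fin.sum_univ_succ] at hf
      simp only [Fin.cons_zero, Fin.cons_succ] at hf
      refine ⟨⟨⟨f 0, fun h2 => hf0 ?_⟩, fun j => f j.succ⟩, hf⟩
      rw [h2, map_zero, LinearMap.zero_apply, zero_add] at hf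
      have h3 := hx (fun j => f j.succ) hf
      funext j
      refine Fin.cases h2 (fun j => congrFun h3 j) j
    have hcount : Countable (ZMod p)[X] := by
      rw [← Cardinal.mk_le_aleph0_iff]
      refine Polynomial.cardinalMk_le_max.trans (max_le ?_ le_rfl)
      exact Cardinal.mk_le_aleph0_iff.2 inferInstance
    have hclosed : ∀ i : {f : (ZMod p)[X] // f ≠ 0} × (Fin k → (ZMod p)[X]),
        IsClosed {y : Q | aeval L i.1.1 y + ∑ j, aeval L (i.2 j) (x j) = 0} := fun i =>
      isClosed_singleton.preimage ((continuous_aeval L hL i.1.1).add continuous_const)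
    have hU : (⋃ i : {f : (ZMod p)[X] // f ≠ 0} × (Fin k → (ZMod p)[X]),
        {y : Q | aeval L i.1.1 y + ∑ j, aeval L (i.2 j) (x j) = 0}) = Set.univ := by
      rw [Set.eq_univ_iff_forall]
      intro y
      rw [Set.mem_iUnion]
      exact hdep y
    obtain ⟨⟨⟨f, hf⟩, g⟩, y₁, hy₁⟩ := nonempty_interior_of_iUnion_of_closed hclosed hU
    rw [mem_interior_iff_mem_nhds] at hy₁
    -- the kernel of `f(L)` is open
    let N : AddSubgroup Q := (aeval L f).toAddMonoidHom.ker
    have hN0 : (N : Set Q) ∈ 𝓝 (0 : Q) := by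
      have h1 : Tendsto (fun z : Q => z + y₁) (𝓝 0) (𝓝 y₁) :=
        (continuous_id.add continuous_const).tendsto' 0 y₁ (zero_add _)
      refine mem_of_superset (h1 hy₁) fun z hz => ?_
      have h2 : aeval L f (z + y₁) + ∑ j, aeval L (g j) (x j) = 0 := hz
      have h3 : y₁ ∈ {y : Q | aeval L f y + ∑ j, aeval L (g j) (x j) = 0} :=
        mem_of_mem_nhds hy₁
      replace h3 : aeval L f y₁ + ∑ j, aeval L (g j) (x j) = 0 := h3
      change aeval L f z = 0
      rw [map_add, add_assoc, h3, add_zero] at h2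
      exact h2
    have hN : IsOpen (N : Set Q) := AddSubgroup.isOpen_of_mem_nhds N hN0
    have hfin : Finite (Q ⧸ N) := AddSubgroup.quotient_finite_of_isOpen N hN
    have hrange : Finite (aeval L f).toAddMonoidHom.range :=
      Finite.of_equiv _ (QuotientAddGroup.quotientKerEquivRange _).toEquiv
    -- pigeonhole
    obtain ⟨a, b, hab, hab'⟩ := Finite.exists_ne_map_eq_of_infinite
      (fun n : ℕ => (⟨aeval L f ((L ^ n) x₀), ⟨(L ^ n) x₀, rfl⟩⟩ :
        (aeval L f).toAddMonoidHom.range))
    have h1 : aeval L f ((L ^ a) x₀) = aeval L f ((L ^ b) x₀) := congrArg Subtype.val hab'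
    rw [← aeval_X_pow_mul, ← aeval_X_pow_mul, ← sub_eq_zero, ← LinearMap.sub_apply, ← map_sub,
      ← sub_mul] at h1
    have h2 := h0 _ h1
    rcases mul_eq_zero.1 h2 with h3 | h3
    · rw [sub_eq_zero] at h3
      have := congrArg natDegree h3
      rw [natDegree_X_pow, natDegree_X_pow] at this
      exact hab this
    · exact hf h3

end baire

section lower

open Polynomial

variable {G Q : Type} [AddCommGroup G] [AddCommGroup Q] {p : ℕ} [Fact p.Prime]
  [Module (ZMod p) Q]

/-- Elements with independent trajectories in a quotient give a large entropy. -/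
theorem card_ge (φ : G →+ G) (L : Q →ₗ[ZMod p] Q) (π : G →+ Q) (h : ∀ x, π (φ x) = L (π x))
    {k : ℕ} (x : Fin k → G) (hx : Indep L fun j => π (x j)) (F : AddSubgroup G) [Finite F]
    (hF : ∀ j, x j ∈ F) (n : ℕ) : 2 ^ (k * n) ≤ Nat.card (trajectory φ F n) := by
  classical
  have hiter : ∀ i y, π (φ^[i] y) = (L ^ i) (π y) := by
    intro i y
    induction i with
    | zero => rfl
    | succ i ih => rw [Function.iterate_succ_apply', h, ih, pow_succ']; rfl
  have hfin := finite_trajectory φ F n
  let P : (Fin k → Fin n → Bool) → Fin k → (ZMod p)[X] := fun e j =>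
    ∑ l, if e j l then X ^ (l : ℕ) else 0
  let f : (Fin k → Fin n → Bool) → trajectory φ F n := fun e =>
    ⟨∑ j, ∑ l : Fin n, if e j l then φ^[(l : ℕ)] (x j) else 0, by
      refine sum_mem fun j _ => sum_mem fun l _ => ?_
      split_ifs
      · exact pow_mem_trajectory φ F l.2 (hF j)
      · exact zero_mem _⟩
  have hf : ∀ e, π (f e) = ∑ j, aeval L (P e j) (π (x j)) := by
    intro e
    simp only [f, P, map_sum, LinearMap.sum_apply]
    refine Finset.sum_congr rfl fun j _ => Finset.sum_congr rfl fun l _ => ?_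
    split_ifs
    · rw [hiter, map_pow, aeval_X]
    · simp
  have hinj : Function.Injective f := by
    intro e e' hee
    have h1 : ∑ j, aeval L (P e j - P e' j) (π (x j)) = 0 := by
      simp only [map_sub, LinearMap.sub_apply, Finset.sum_sub_distrib]
      rw [← hf, ← hf, hee, sub_self]
    have h2 := hx _ h1
    funext j l
    have h3 : P e j = P e' j := sub_eq_zero.1 (congrFun h2 j)
    have h4 : ∀ e : Fin k → Fin n → Bool, (P e j).coeff l = if e j l then 1 else 0 := by
      intro e
      simp only [P, finsetSum_coeff]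
      rw [Finset.sum_eq_single l]
      · split_ifs <;> simp
      · intro l' _ hl'
        split_ifs
        · rw [coeff_X_pow, if_neg]
          intro h5
          exact hl' (Fin.ext h5.symm)
        · simp
      · intro h; exact absurd (Finset.mem_univ _) h
    have h5 := h4 e
    rw [h3, h4 e'] at h5
    cases h6 : e j l <;> cases h7 : e' j l <;> simp [h6, h7] at h5 ⊢
  calc 2 ^ (k * n) = Nat.card (Fin k → Fin n → Bool) := by
        rw [Nat.card_eq_fintype_card]
        simp only [Fintype.card_pi, Finset.prod_const, Finset.card_univ, Fintype.card_fin,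
          Fintype.card_bool]
        rw [← pow_mul, mul_comm]
    _ ≤ _ := Nat.card_le_card_of_injective f hinj

end lower

/-! ### The dichotomy for compact groups of finite exponent -/

section dichotomy

open Polynomial

theorem finite_closure {G : Type} [AddCommGroup G] {N : ℕ} (hN : N ≠ 0)
    (h : ∀ x : G, N • x = 0) {s : Set G} (hs : s.Finite) : Finite (AddSubgroup.closure s) := by
  have hfg : AddGroup.FG (AddSubgroup.closure s) := by
    rw [AddGroup.fg_iff_addSubgroup_fg, AddSubgroup.fg_iff]
    exact ⟨s, rfl, hs⟩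
  have ht : IsAddTorsion (AddSubgroup.closure s) := by
    intro x
    rw [isOfFinAddOrder_iff_nsmul_eq_zero]
    refine ⟨N, Nat.pos_of_ne_zero hN, ?_⟩
    ext
    exact h x
  exact AddCommGroup.finite_of_fg_isAddTorsion _ ht

/-- Every element lies in a finite subgroup stable under `φ`. -/
def LocallyFinite {G : Type} [AddCommGroup G] (φ : G →+ G) : Prop :=
  ∀ x : G, ∃ W : AddSubgroup G, Finite W ∧ x ∈ W ∧ ∀ y ∈ W, φ y ∈ W

/-- There are finite subgroups with trajectories growing arbitrarily fast. -/
def Large {G : Type} [AddCommGroup G] (φ : G →+ G) : Prop :=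
  ∀ k : ℕ, ∃ F : AddSubgroup G, Finite F ∧ ∀ n, 2 ^ (k * n) ≤ Nat.card (trajectory φ F n)

theorem nsmul_iterate {G : Type} [AddCommGroup G] (φ : G →+ G) (m l : ℕ) (x : G) :
    φ^[l] (m • x) = m • φ^[l] x := by
  induction l with
  | zero => rfl
  | succ l ih => rw [Function.iterate_succ_apply', Function.iterate_succ_apply', ih, map_nsmul]

theorem iterate_mem {G : Type} [AddCommGroup G] (φ : G →+ G) (l : ℕ) (x : G) (C : AddSubgroup G)
    (h : φ^[l] x ∈ C) {y : G} (hy : y ∈ AddSubgroup.closure {x}) : φ^[l] y ∈ C := by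
  induction hy using AddSubgroup.closure_induction with
  | mem y hy => rw [Set.mem_singleton_iff.1 hy]; exact h
  | zero => rw [iterate_map_zero]; exact zero_mem _
  | add a b _ _ ha hb => rw [iterate_map_add]; exact add_mem ha hb
  | neg a _ ha => rw [iterate_map_neg]; exact neg_mem ha

/-- The step from a subgroup (the kernel of `π`), all of whose elements lie in finite stable
subgroups, to `G`, when the quotient `Q` has prime exponent. -/
theorem step' {G Q : Type} [AddCommGroup G] [AddCommGroup Q] [TopologicalSpace Q]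
    [IsTopologicalAddGroup Q] [CompactSpace Q] [T2Space Q] {N : ℕ} (hN0 : N ≠ 0)
    (hN : ∀ x : G, N • x = 0) {p : ℕ} [Fact p.Prime] [Module (ZMod p) Q] (φ : G →+ G)
    (L : Q →ₗ[ZMod p] Q) (hL : Continuous L) (π : G →+ Q) (hsurj : Function.Surjective π)
    (hπ : ∀ x, π (φ x) = L (π x))
    (hH : ∀ z : G, π z = 0 → ∃ W : AddSubgroup G, Finite W ∧ z ∈ W ∧ ∀ y ∈ W, φ y ∈ W) :
    LocallyFinite φ ∨ Large φ := by
  by_cases hx0 : ∃ x₀ : Q, ∀ f : (ZMod p)[X], aeval L f x₀ = 0 → f = 0
  · right
    obtain ⟨x₀, hx₀⟩ := hx0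
    intro k
    obtain ⟨x, hx⟩ := exists_indep L hL x₀ hx₀ k
    choose y hy using fun j => hsurj (x j)
    have hfin := finite_closure hN0 hN (Set.finite_range y)
    refine ⟨AddSubgroup.closure (Set.range y), hfin, fun n => ?_⟩
    refine card_ge φ L π hπ y ?_ _ (fun j => AddSubgroup.subset_closure (Set.mem_range_self j)) n
    have : (fun j => π (y j)) = x := funext hy
    rw [this]
    exact hx
  · left
    push Not at hx0
    intro x
    obtain ⟨f, hf, hf0⟩ := hx0 (π x)
    -- `φ^d x` is a combination of the `φ^l x`, `l < d`, modulo the kernel of `π`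
    have hiter : ∀ i y, π (φ^[i] y) = (L ^ i) (π y) := by
      intro i y
      induction i with
      | zero => rfl
      | succ i ih => rw [Function.iterate_succ_apply', hπ, ih, pow_succ']; rfl
    let d := f.natDegree
    let c : ZMod p := f.leadingCoeff
    have hc : c ≠ 0 := leadingCoeff_ne_zero.2 hf0
    have h1 : (L ^ d) (π x) = ∑ l ∈ Finset.range d, (-(c⁻¹ * f.coeff l)) • (L ^ l) (π x) := by
      rw [aeval_eq_sum_range, LinearMap.sum_apply, Finset.sum_range_succ] at hf
      simp only [LinearMap.smul_apply] at hf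
      have h2 : c • (L ^ d) (π x) = -∑ l ∈ Finset.range d, f.coeff l • (L ^ l) (π x) := by
        rw [eq_neg_iff_add_eq_zero, add_comm]
        exact hf
      have h3 : (L ^ d) (π x) = c⁻¹ • c • (L ^ d) (π x) := by
        rw [smul_smul, inv_mul_cancel₀ hc, one_smul]
      rw [h3, h2, smul_neg, Finset.smul_sum, ← Finset.sum_neg_distrib]
      refine Finset.sum_congr rfl fun l _ => ?_
      rw [smul_smul, neg_smul]
    let m : ℕ → ℕ := fun l => (-(c⁻¹ * f.coeff l)).val
    let z : G := φ^[d] x - ∑ l ∈ Finset.range d, m l • φ^[l] x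
    have hz : π z = 0 := by
      simp only [z, map_sub, map_sum, map_nsmul, hiter]
      rw [sub_eq_zero, h1]
      refine Finset.sum_congr rfl fun l _ => ?_
      rw [← Nat.cast_smul_eq_nsmul (ZMod p), ZMod.natCast_zmod_val]
    obtain ⟨B, hB, hzB, hBst⟩ := hH z hz
    let A : AddSubgroup G := trajectory φ (AddSubgroup.closure {x}) d
    have hcl := finite_closure hN0 hN (Set.finite_singleton x)
    have hA : Finite A := finite_trajectory φ _ _
    have hAB : ∀ l ≤ d, φ^[l] x ∈ A ⊔ B := by
      intro l hl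
      rcases hl.lt_or_eq with h2 | h2
      · exact AddSubgroup.mem_sup_left (pow_mem_trajectory φ _ h2
          (AddSubgroup.subset_closure rfl))
      · have h3 : φ^[l] x = ∑ l ∈ Finset.range d, m l • φ^[l] x + z := by
          rw [h2]; simp only [z]; abel
        rw [h3]
        refine add_mem (sum_mem fun l hl => nsmul_mem ?_ _) (AddSubgroup.mem_sup_right hzB)
        exact AddSubgroup.mem_sup_left (pow_mem_trajectory φ _ (Finset.mem_range.1 hl)
          (AddSubgroup.subset_closure rfl))
    refine ⟨A ⊔ B, finite_sup, hAB 0 (Nat.zero_le _), ?_⟩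
    have hstA : A ≤ (A ⊔ B).comap φ := by
      refine trajectory_le φ fun l hl y hy => ?_
      rw [AddSubgroup.mem_comap, ← Function.iterate_succ_apply' φ l y]
      exact iterate_mem φ (l + 1) x _ (hAB (l + 1) hl) hy
    have hstB : B ≤ (A ⊔ B).comap φ := fun w hw => AddSubgroup.mem_sup_right (hBst w hw)
    intro y hy
    exact (sup_le hstA hstB : A ⊔ B ≤ (A ⊔ B).comap φ) hy

theorem step {G Q : Type} [AddCommGroup G] [AddCommGroup Q] [TopologicalSpace Q]
    [IsTopologicalAddGroup Q] [CompactSpace Q] [T2Space Q] {N : ℕ} (hN0 : N ≠ 0)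
    (hN : ∀ x : G, N • x = 0) {p : ℕ} [Fact p.Prime] (hQ : ∀ q : Q, p • q = 0) (φ : G →+ G)
    (φQ : Q →+ Q) (hφQ : Continuous φQ) (π : G →+ Q) (hsurj : Function.Surjective π)
    (hπ : ∀ x, π (φ x) = φQ (π x))
    (hH : ∀ z : G, π z = 0 → ∃ W : AddSubgroup G, Finite W ∧ z ∈ W ∧ ∀ y ∈ W, φ y ∈ W) :
    LocallyFinite φ ∨ Large φ :=
  letI : Module (ZMod p) Q := AddCommGroup.zmodModule hQ
  step' hN0 hN φ (φQ.toZModLinearMap p) hφQ π hsurj hπ hH

theorem dichotomy (N : ℕ) : ∀ (G : Type) [AddCommGroup G] [TopologicalSpace G]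
    [IsTopologicalAddGroup G] [CompactSpace G] [T2Space G] (φ : G →+ G), Continuous φ → N ≠ 0 →
    (∀ x : G, N • x = 0) → LocallyFinite φ ∨ Large φ := by
  induction N using Nat.strong_induction_on with
  | _ N ih =>
  intro G _ _ _ _ _ φ hφ hN0 hN
  rcases eq_or_ne N 1 with rfl | hN1
  · left
    intro x
    have h1 : ∀ y : G, y = 0 := fun y => by rw [← one_nsmul y, hN y]
    exact ⟨⊥, inferInstance, h1 x ▸ zero_mem _, fun y _ => h1 (φ y) ▸ zero_mem _⟩
  -- `H = p G`
  obtain ⟨p, hp, hpN⟩ := Nat.exists_prime_and_dvd hN1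
  have : Fact p.Prime := ⟨hp⟩
  obtain ⟨M, rfl⟩ := hpN
  let H : AddSubgroup G := (nsmulAddMonoidHom p).range
  have hHcl : IsClosed (H : Set G) := (isCompact_range (continuous_nsmul p)).isClosed
  have hHstab : ∀ x ∈ H, φ x ∈ H := by
    rintro _ ⟨y, rfl⟩
    exact ⟨φ y, (map_nsmul φ p y).symm⟩
  have hHc : CompactSpace H := isCompact_iff_compactSpace.1 hHcl.isCompact
  let φH : H →+ H := (φ.comp H.subtype).codRestrict H fun x => hHstab x.1 x.2
  have hφH : Continuous φH := (hφ.comp continuous_subtype_val).subtype_mk _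
  have hM0 : M ≠ 0 := by rintro rfl; exact hN0 (mul_zero _)
  have hMH : ∀ x : H, M • x = 0 := by
    rintro ⟨_, y, rfl⟩
    ext
    change M • p • y = 0
    rw [← mul_nsmul]
    exact hN y
  have hMlt : M < p * M := by
    have := hp.two_le
    nlinarith [Nat.pos_of_ne_zero hM0]
  rcases ih M hMlt H φH hφH hM0 hMH with hH | hH
  swap
  · right
    intro k
    obtain ⟨F, hF, hFn⟩ := hH k
    refine ⟨F.map H.subtype, ?_, fun n => ?_⟩
    · exact Set.Finite.image H.subtype (show (F : Set H).Finite from hF)
    · have hfin : Finite (F.map H.subtype : AddSubgroup G) :=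
        Set.Finite.image H.subtype (show (F : Set H).Finite from hF)
      have hfin2 := finite_trajectory φ (F.map H.subtype) n
      refine (hFn n).trans ?_
      have h1 := map_trajectory_le φ φH H.subtype (fun _ => rfl) F n
      rw [Nat.card_congr ((trajectory φH F n).equivMapOfInjective H.subtype
        H.subtype_injective).toEquiv]
      exact Nat.card_mono (show ((trajectory φ (F.map H.subtype) n : AddSubgroup G) :
        Set G).Finite from hfin2) h1
  -- `Q = G / H`
  have hT3 : T3Space (G ⧸ H) := by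
    have : IsClosed (H : Set G) := hHcl
    infer_instance
  refine step (Q := G ⧸ H) hN0 hN (p := p) ?_ φ
    (QuotientAddGroup.map H H φ fun x hx => hHstab x hx) ?_ (QuotientAddGroup.mk' H)
    (QuotientAddGroup.mk'_surjective H) (fun x => rfl) ?_
  · intro q
    obtain ⟨y, rfl⟩ := QuotientAddGroup.mk'_surjective H q
    rw [← map_nsmul]
    exact (QuotientAddGroup.eq_zero_iff _).2 ⟨y, rfl⟩
  · exact QuotientAddGroup.isOpenQuotientMap_mk.isQuotientMap.continuous_iff.2
      (QuotientAddGroup.continuous_mk.comp hφ)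
  · intro z hz
    have hzH : z ∈ H := (QuotientAddGroup.eq_zero_iff _).1 hz
    obtain ⟨W, hWfin, hzW, hWst⟩ := hH ⟨z, hzH⟩
    refine ⟨W.map H.subtype, Set.Finite.image H.subtype (show (W : Set H).Finite from hWfin),
      ⟨⟨z, hzH⟩, hzW, rfl⟩, ?_⟩
    rintro _ ⟨w, hw, rfl⟩
    exact ⟨φH w, hWst w hw, rfl⟩

theorem ent_eq_zero {G : Type} [AddCommGroup G] (φ : G →+ G) (h : LocallyFinite φ) :
    ent φ = 0 := by
  choose W hWfin hxW hWst using h
  apply le_antisymm
  · refine iSup₂_le fun F hF => ?_
    have hF' : (F : Set G).Finite := hF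
    let V : AddSubgroup G := ⨆ x ∈ hF'.toFinset, W x
    have hV : Finite V := finite_iSup _ _ fun x _ => hWfin x
    have hWV : ∀ x ∈ F, W x ≤ V := fun x hx =>
      le_iSup₂_of_le (f := fun x (_ : x ∈ hF'.toFinset) => W x) x (hF'.mem_toFinset.2 hx) le_rfl
    have hst : V ≤ V.comap φ := by
      refine iSup₂_le fun x hx y hy => ?_
      exact hWV x (hF'.mem_toFinset.1 hx) (hWst x y hy)
    rw [entropyOn_eq_zero φ F V fun n =>
      trajectory_le_of_stable φ (fun x hx => hWV x hx (hxW x)) (fun x hx => hst hx) n]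
    exact le_rfl
  · have h0 : entropyOn φ (⊥ : AddSubgroup G) = 0 :=
      entropyOn_eq_zero φ ⊥ ⊥ fun n =>
        trajectory_le_of_stable φ le_rfl (fun x hx => by
          rw [AddSubgroup.mem_bot] at hx ⊢; rw [hx, map_zero]) n
    refine le_iSup₂_of_le (f := fun (F : AddSubgroup G) (_ : Finite F) => (entropyOn φ F : EReal))
      ⊥ inferInstance ?_
    rw [h0]
    exact le_rfl

theorem ent_eq_top {G : Type} [AddCommGroup G] (φ : G →+ G) (h : Large φ) : ent φ = ⊤ := by
  rw [EReal.eq_top_iff_forall_lt]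
  intro r
  have hlog : 0 < Real.log 2 := Real.log_pos one_lt_two
  obtain ⟨k, hk⟩ := exists_nat_gt (r / Real.log 2)
  obtain ⟨F, hF, hFn⟩ := h k
  have h1 := le_entropyOn φ F k hFn
  have h2 : r < entropyOn φ F := lt_of_lt_of_le ((div_lt_iff₀ hlog).1 hk) h1
  refine lt_of_lt_of_le (EReal.coe_lt_coe_iff.2 h2) ?_
  exact le_iSup₂_of_le (f := fun (F : AddSubgroup G) (_ : Finite F) => (entropyOn φ F : EReal))
    F hF le_rfl

end dichotomy

/-- **Full answer to Q1.** For every nontrivial finite abelian group `K`, with the discrete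
topology, every continuous endomorphism of the compact group `K^ℕ` has algebraic entropy `0` or
`∞`: there is none with `0 < ent(φ) < ∞`. -/
theorem result (K : Type) [AddCommGroup K] [Finite K] [Nontrivial K] [TopologicalSpace K]
    [DiscreteTopology K] :
    ¬ ∃ φ : (ℕ → K) →+ (ℕ → K), Continuous φ ∧ 0 < ent φ ∧ ent φ < ⊤ := by
  rintro ⟨φ, hφ, h0, htop⟩
  have hN : ∀ x : ℕ → K, Nat.card K • x = 0 := by
    intro x
    funext i
    exact card_nsmul_eq_zero'
  rcases dichotomy (Nat.card K) (ℕ → K) φ hφ Nat.card_pos.ne' hN with h | h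
  · exact h0.ne' (ent_eq_zero φ h)
  · exact htop.ne (ent_eq_top φ h)

end Pool.Agent.Results.MP_e13f3c_al.ZeroOrInfinite
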